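import Mathlib

/-!
The law of simple random walk on `ℤ` and on `ℤ²` (via the rotation of the lattice) with two-sided
bounds.
-/

open Finset

namespace Pool.Agent.Q209.Poly

theorem central_le (m : ℕ) : m.centralBinom ^ 2 * (2 * m + 1) ≤ 16 ^ m := by
  induction m with
  | zero => simp
  | succ m ih =>
    have h := Nat.succ_mul_centralBinom_succ m
    have h1 : (m + 1) ^ 2 * ((m + 1).centralBinom ^ 2 * (2 * (m + 1) + 1)) ≤
        (m + 1) ^ 2 * 16 ^ (m + 1) := by
      calc (m + 1) ^ 2 * ((m + 1).centralBinom ^ 2 * (2 * (m + 1) + 1))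
          = ((m + 1) * (m + 1).centralBinom) ^ 2 * (2 * m + 3) := by ring
        _ = (2 * (2 * m + 1) * m.centralBinom) ^ 2 * (2 * m + 3) := by rw [h]
        _ = 4 * ((2 * m + 1) * (2 * m + 3)) * (m.centralBinom ^ 2 * (2 * m + 1)) := by ring
        _ ≤ 4 * (4 * (m + 1) ^ 2) * 16 ^ m := by
            have hh : (2 * m + 1) * (2 * m + 3) ≤ 4 * (m + 1) ^ 2 := by nlinarith
            exact Nat.mul_le_mul (Nat.mul_le_mul_left 4 hh) ih
        _ = (m + 1) ^ 2 * 16 ^ (m + 1) := by ring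
    exact Nat.le_of_mul_le_mul_left h1 (by positivity)

theorem central_ge (m : ℕ) (hm : 1 ≤ m) : 16 ^ m ≤ m.centralBinom ^ 2 * (4 * m) := by
  induction m, hm using Nat.le_induction with
  | base => decide
  | succ m hm ih =>
    have h := Nat.succ_mul_centralBinom_succ m
    have h1 : (m + 1) * 16 ^ (m + 1) ≤
        (m + 1) * ((m + 1).centralBinom ^ 2 * (4 * (m + 1))) := by
      calc (m + 1) * 16 ^ (m + 1) = 16 * (m + 1) * 16 ^ m := by ring
        _ ≤ 16 * (m + 1) * (m.centralBinom ^ 2 * (4 * m)) := by gcongr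
        _ = 16 * (4 * m * (m + 1)) * m.centralBinom ^ 2 := by ring
        _ ≤ 16 * ((2 * m + 1) ^ 2) * m.centralBinom ^ 2 := by
            gcongr
            nlinarith
        _ = 4 * (2 * (2 * m + 1) * m.centralBinom) ^ 2 := by ring
        _ = 4 * ((m + 1) * (m + 1).centralBinom) ^ 2 := by rw [h]
        _ = (m + 1) * ((m + 1).centralBinom ^ 2 * (4 * (m + 1))) := by ring
    exact Nat.le_of_mul_le_mul_left h1 (by positivity)

theorem middle_le (k : ℕ) : (k.choose (k / 2)) ^ 2 * k ≤ 4 ^ k := by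
  rcases Nat.even_or_odd' k with ⟨m, rfl | rfl⟩
  · have h := central_le m
    rw [Nat.centralBinom] at h
    rw [Nat.mul_div_cancel_left m (by norm_num), pow_mul]
    refine le_trans ?_ h
    gcongr
    omega
  · have h := central_le (m + 1)
    have h1 : (m + 1).centralBinom = 2 * (2 * m + 1).choose m := by
      rw [Nat.centralBinom, show 2 * (m + 1) = 2 * m + 1 + 1 by ring, Nat.choose_succ_succ,
        Nat.choose_symm_half]
      ring
    rw [h1] at h
    have h2 : (2 * m + 1) / 2 = m := by omega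
    rw [h2]
    have h3 : 4 * ((2 * m + 1).choose m ^ 2 * (2 * m + 1)) ≤ 4 * 4 ^ (2 * m + 1) := by
      calc 4 * ((2 * m + 1).choose m ^ 2 * (2 * m + 1))
          ≤ 4 * ((2 * m + 1).choose m ^ 2 * (2 * (m + 1) + 1)) := by gcongr; omega
        _ = (2 * (2 * m + 1).choose m) ^ 2 * (2 * (m + 1) + 1) := by ring
        _ ≤ 16 ^ (m + 1) := h
        _ = 4 * 4 ^ (2 * m + 1) := by
            rw [show (16 : ℕ) = 4 ^ 2 by norm_num, ← pow_mul, ← pow_succ']
            congr 1
    exact Nat.le_of_mul_le_mul_left h3 (by norm_num)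

/-- binomial coefficients with an integer lower index -/
def Ci (k : ℕ) (j : ℤ) : ℕ := if 0 ≤ j then k.choose j.toNat else 0

theorem Ci_le (k : ℕ) (j : ℤ) : Ci k j ≤ k.choose (k / 2) := by
  unfold Ci
  split_ifs
  · exact Nat.choose_le_middle _ _
  · exact Nat.zero_le _

theorem Ci_succ (k : ℕ) (j : ℤ) : Ci (k + 1) j = Ci k (j - 1) + Ci k j := by
  unfold Ci
  rcases lt_trichotomy j 0 with h | h | h
  · rw [if_neg (by omega), if_neg (by omega), if_neg (by omega)]
  · subst h
    rw [if_pos le_rfl, if_neg (by omega), if_pos le_rfl]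
    simp
  · obtain ⟨m, rfl⟩ : ∃ m : ℕ, j = m + 1 := ⟨(j - 1).toNat, by omega⟩
    rw [if_pos (by omega), if_pos (by omega), if_pos (by omega)]
    have h1 : ((m : ℤ) + 1).toNat = m + 1 := by omega
    have h2 : ((m : ℤ) + 1 - 1).toNat = m := by omega
    rw [h1, h2, Nat.choose_succ_succ]

/-- law of simple random walk on `ℤ` -/
noncomputable def q : ℕ → ℤ → ENNReal
  | 0, a => if a = 0 then 1 else 0
  | k + 1, a => (q k (a - 1) + q k (a + 1)) / 2

theorem q_formula (k : ℕ) (a : ℤ) :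
    q k a = if ((k : ℤ) + a) % 2 = 0 then (Ci k (((k : ℤ) + a) / 2) : ENNReal) / 2 ^ k else 0 := by
  induction k generalizing a with
  | zero =>
    unfold q Ci
    by_cases ha : a = 0
    · subst ha; simp
    · rw [if_neg ha]
      split_ifs with h1 h2
      · have : (((0 : ℕ) : ℤ) + a) / 2 ≠ 0 := by omega
        obtain ⟨m, hm⟩ : ∃ m : ℕ, (((0 : ℕ) : ℤ) + a) / 2 = m + 1 :=
          ⟨((((0 : ℕ) : ℤ) + a) / 2 - 1).toNat, by omega⟩
        rw [hm]
        have h3 : ((m : ℤ) + 1).toNat = m + 1 := by omega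
        rw [h3]
        simp
      · simp
      · rfl
  | succ k ih =>
    rw [q, ih, ih]
    by_cases h : (((k + 1 : ℕ) : ℤ) + a) % 2 = 0
    · have e1 : ((k : ℤ) + (a - 1)) % 2 = 0 := by push_cast at h; omega
      have e2 : ((k : ℤ) + (a + 1)) % 2 = 0 := by push_cast at h; omega
      rw [if_pos h, if_pos e1, if_pos e2, Ci_succ]
      have e3 : ((k : ℤ) + (a - 1)) / 2 = (((k + 1 : ℕ) : ℤ) + a) / 2 - 1 := by push_cast; omega
      have e4 : ((k : ℤ) + (a + 1)) / 2 = (((k + 1 : ℕ) : ℤ) + a) / 2 := by push_cast; omega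
      rw [e3, e4, ← ENNReal.add_div, pow_succ]
      push_cast
      rw [div_eq_mul_inv, div_eq_mul_inv, div_eq_mul_inv, mul_assoc,
        ENNReal.mul_inv (by simp) (by simp)]
    · have e1 : ¬ ((k : ℤ) + (a - 1)) % 2 = 0 := by push_cast at h; omega
      have e2 : ¬ ((k : ℤ) + (a + 1)) % 2 = 0 := by push_cast at h; omega
      rw [if_neg h, if_neg e1, if_neg e2]
      simp

/-- uniform upper bound -/
theorem q_mul_le (k : ℕ) (hk : 1 ≤ k) (a b : ℤ) : q k a * q k b ≤ (k : ENNReal)⁻¹ := by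
  have hc : ∀ a, q k a ≤ (k.choose (k / 2) : ENNReal) / 2 ^ k := by
    intro a
    rw [q_formula]
    split_ifs
    · gcongr
      exact_mod_cast Ci_le k _
    · exact bot_le
  refine (mul_le_mul' (hc a) (hc b)).trans ?_
  have hk0 : (k : ENNReal) ≠ 0 := by exact_mod_cast (by omega : k ≠ 0)
  rw [ENNReal.le_inv_iff_mul_le]
  have e : (k.choose (k / 2) : ENNReal) / 2 ^ k * ((k.choose (k / 2) : ENNReal) / 2 ^ k) * k =
      ((k.choose (k / 2) ^ 2 * k : ℕ) : ENNReal) / ((4 ^ k : ℕ) : ENNReal) := by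
    push_cast
    rw [show (4 : ENNReal) = 2 * 2 by norm_num, mul_pow, div_eq_mul_inv, div_eq_mul_inv,
      ENNReal.mul_inv (by simp) (by simp)]
    ring
  rw [e]
  refine ENNReal.div_le_of_le_mul ?_
  rw [one_mul]
  exact_mod_cast middle_le k

/-- lower bound for the return probability -/
theorem q_zero_ge (m : ℕ) (hm : 1 ≤ m) : ((4 * m : ℕ) : ENNReal)⁻¹ ≤ q (2 * m) 0 * q (2 * m) 0 := by
  have h0 : q (2 * m) 0 = (m.centralBinom : ENNReal) / 2 ^ (2 * m) := by
    rw [q_formula, if_pos (by push_cast; omega)]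
    have : (((2 * m : ℕ) : ℤ) + 0) / 2 = m := by push_cast; omega
    rw [this, Ci, if_pos (by omega), Int.toNat_natCast, Nat.centralBinom]
  have e : (m.centralBinom : ENNReal) / 2 ^ (2 * m) * ((m.centralBinom : ENNReal) / 2 ^ (2 * m)) =
      ((m.centralBinom ^ 2 : ℕ) : ENNReal) / ((16 ^ m : ℕ) : ENNReal) := by
    push_cast
    rw [show (16 : ENNReal) = 2 ^ 2 * 2 ^ 2 by norm_num, mul_pow, ← pow_mul, div_eq_mul_inv,
      div_eq_mul_inv, ENNReal.mul_inv (by simp) (by simp)]
    ring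
  rw [h0, e]
  have h1 := central_ge m hm
  rw [ENNReal.le_div_iff_mul_le (by left; exact_mod_cast (by positivity : 16 ^ m ≠ 0))
    (by left; exact ENNReal.natCast_ne_top _), mul_comm, ← div_eq_mul_inv]
  refine ENNReal.div_le_of_le_mul ?_
  exact_mod_cast h1

end Pool.Agent.Q209.Poly
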